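import Mathlib

/-!
# Products with an indecomposable factor are not `λ`-connected

If `X` is a nondegenerate indecomposable metric continuum and `Y` is any continuum, then `X × Y` is
not `λ`-connected. Proof. Let `x₁, x₂` be points of `X` which lie in no common proper subcontinuum
(Baire category), and let `K` be a hereditarily decomposable subcontinuum of `X × Y` which meets
`{x₁} × Y` and `{x₂} × Y`. Then the projection of `K` to `X` is `X`. Let `L ⊆ K` be a subcontinuum
which is minimal with the property that its projection is `X`. If `L = A ∪ B` with proper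
subcontinua `A`, `B`, then `X` is the union of the projections of `A` and `B`, one of which is `X`
as `X` is indecomposable. This contradicts the minimality of `L`.

The inverse limit of the tent map is a nondegenerate indecomposable continuum.
-/

set_option autoImplicit false

open Set Topology Filter

namespace Pool.Agent.Results.MP_3d59a4_gt.IndecomposableFactor

/-- `W` is a (nonempty) subcontinuum. -/
def IsSubcontinuum {Z : Type*} [TopologicalSpace Z] (W : Set Z) : Prop :=
  IsCompact W ∧ IsConnected W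

/-- The subcontinuum `L` is the union of two proper subcontinua. -/
def Decomposable {Z : Type*} [TopologicalSpace Z] (L : Set Z) : Prop :=
  ∃ A B : Set Z, IsSubcontinuum A ∧ IsSubcontinuum B ∧ A ≠ L ∧ B ≠ L ∧ A ∪ B = L

/-- `K` is hereditarily decomposable: every nondegenerate subcontinuum of `K` is decomposable. -/
def HereditarilyDecomposable {Z : Type*} [TopologicalSpace Z] (K : Set Z) : Prop :=
  ∀ L ⊆ K, IsSubcontinuum L → L.Nontrivial → Decomposable L

/-- Any two points lie in a hereditarily decomposable subcontinuum. -/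
def LambdaConnected (Z : Type*) [TopologicalSpace Z] : Prop :=
  ∀ p q : Z, ∃ K : Set Z, IsSubcontinuum K ∧ HereditarilyDecomposable K ∧ p ∈ K ∧ q ∈ K

section general

variable {Z : Type*} [TopologicalSpace Z] [T2Space Z]

/-- The intersection of a nonempty chain of subcontinua is a subcontinuum. -/
theorem isSubcontinuum_sInter {c : Set (Set Z)} (hne : c.Nonempty) (hc : IsChain (· ⊆ ·) c)
    (h : ∀ s ∈ c, IsSubcontinuum s) : IsSubcontinuum (⋂₀ c) := by
  have hn : Nonempty c := hne.to_subtype
  have hdir : Directed (· ⊇ ·) (fun s : c => (s : Set Z)) := by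
    rintro ⟨s, hs⟩ ⟨s', hs'⟩
    rcases hc.total hs hs' with h1 | h1
    · exact ⟨⟨s, hs⟩, subset_rfl, h1⟩
    · exact ⟨⟨s', hs'⟩, h1, subset_rfl⟩
  obtain ⟨s0, hs0⟩ := hne
  have hcl : IsClosed (⋂₀ c) := isClosed_sInter fun s hs => (h s hs).1.isClosed
  refine ⟨(h s0 hs0).1.of_isClosed_subset hcl (sInter_subset_of_mem hs0), ?_, ?_⟩
  · rw [sInter_eq_iInter]
    exact IsCompact.nonempty_iInter_of_directed_nonempty_isCompact_isClosed _ hdir
      (fun s => (h s s.2).2.nonempty) (fun s => (h s s.2).1) fun s => (h s s.2).1.isClosed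
  · rw [isPreconnected_iff_subset_of_fully_disjoint_closed hcl]
    intro u v hu hv hsub hdis
    have hcu : IsCompact (⋂₀ c ∩ u) :=
      ((h s0 hs0).1.of_isClosed_subset hcl (sInter_subset_of_mem hs0)).inter_right hu
    have hcv : IsCompact (⋂₀ c ∩ v) :=
      ((h s0 hs0).1.of_isClosed_subset hcl (sInter_subset_of_mem hs0)).inter_right hv
    have hd : Disjoint (⋂₀ c ∩ u) (⋂₀ c ∩ v) :=
      hdis.mono inter_subset_right inter_subset_right
    obtain ⟨U, V, hU, hV, huU, hvV, hUV⟩ := SeparatedNhds.of_isCompact_isCompact hcu hcv hd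
    obtain ⟨⟨s, hs⟩, hsU⟩ := exists_subset_nhds_of_isCompact' hdir (fun s => (h s s.2).1)
      (fun s => (h s s.2).1.isClosed) (U := U ∪ V) (by
        intro x hx
        rw [← sInter_eq_iInter] at hx
        refine (hU.union hV).mem_nhds ?_
        rcases hsub hx with h1 | h1
        · exact Or.inl (huU ⟨hx, h1⟩)
        · exact Or.inr (hvV ⟨hx, h1⟩))
    have hpre := (h s hs).2.isPreconnected
    rw [isPreconnected_iff_subset_of_disjoint] at hpre
    rcases hpre U V hU hV hsU (by
      rw [disjoint_iff_inter_eq_empty.1 hUV, inter_empty]) with h1 | h1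
    · left
      intro x hx
      rcases hsub hx with h2 | h2
      · exact h2
      · exact absurd (h1 (hx s hs)) (Set.disjoint_right.1 hUV (hvV ⟨hx, h2⟩))
    · right
      intro x hx
      rcases hsub hx with h2 | h2
      · exact absurd (h1 (hx s hs)) (Set.disjoint_left.1 hUV (huU ⟨hx, h2⟩))
      · exact h2

/-- A hereditarily decomposable subcontinuum has no map onto a nondegenerate indecomposable
space. -/
theorem not_surj {X : Type*} [TopologicalSpace X] [T2Space X] [Nontrivial X]
    (hX : ¬ Decomposable (univ : Set X)) {K : Set Z} (hK : IsSubcontinuum K)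
    (hKd : HereditarilyDecomposable K) {f : Z → X} (hf : Continuous f) : f '' K ≠ univ := by
  intro hfK
  obtain ⟨L, hLK, hL⟩ := zorn_superset_nonempty
    {L : Set Z | L ⊆ K ∧ IsSubcontinuum L ∧ f '' L = univ} (by
      intro c hc hchain hne
      have hsub : IsSubcontinuum (⋂₀ c) :=
        isSubcontinuum_sInter hne hchain fun s hs => (hc hs).2.1
      obtain ⟨s0, hs0⟩ := hne
      refine ⟨⋂₀ c, ⟨(sInter_subset_of_mem hs0).trans (hc hs0).1, hsub, ?_⟩,
        fun s hs => sInter_subset_of_mem hs⟩
      rw [eq_univ_iff_forall]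
      intro x
      have hn : Nonempty c := ⟨⟨s0, hs0⟩⟩
      have hxc : IsClosed (f ⁻¹' {x}) := isClosed_singleton.preimage hf
      have h1 : (⋂ s : c, ((s : Set Z) ∩ f ⁻¹' {x})).Nonempty := by
        apply IsCompact.nonempty_iInter_of_directed_nonempty_isCompact_isClosed
        · rintro ⟨s, hs⟩ ⟨s', hs'⟩
          rcases hchain.total hs hs' with h1 | h1
          · exact ⟨⟨s, hs⟩, subset_rfl, inter_subset_inter_left _ h1⟩
          · exact ⟨⟨s', hs'⟩, inter_subset_inter_left _ h1, subset_rfl⟩
        · rintro ⟨s, hs⟩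
          have : x ∈ f '' s := by rw [(hc hs).2.2]; trivial
          obtain ⟨z, hz, rfl⟩ := this
          exact ⟨z, hz, rfl⟩
        · rintro ⟨s, hs⟩
          exact (hc hs).2.1.1.inter_right hxc
        · rintro ⟨s, hs⟩
          exact (hc hs).2.1.1.isClosed.inter hxc
      obtain ⟨z, hz⟩ := h1
      rw [mem_iInter] at hz
      exact ⟨z, fun s hs => (hz ⟨s, hs⟩).1, (hz ⟨s0, hs0⟩).2⟩) K ⟨subset_rfl, hK, hfK⟩
  obtain ⟨⟨hLK', hLs, hLf⟩, hmin⟩ := hL
  have hLn : L.Nontrivial := by
    by_contra hc
    rw [Set.not_nontrivial_iff] at hc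
    obtain ⟨x, y, hxy⟩ := exists_pair_ne X
    have hx : x ∈ f '' L := by rw [hLf]; trivial
    have hy : y ∈ f '' L := by rw [hLf]; trivial
    obtain ⟨a, ha, rfl⟩ := hx
    obtain ⟨b, hb, rfl⟩ := hy
    exact hxy (by rw [hc ha hb])
  obtain ⟨A, B, hA, hB, hAL, hBL, hAB⟩ := hKd L hLK' hLs hLn
  have hAsub : A ⊆ L := hAB ▸ subset_union_left
  have hBsub : B ⊆ L := hAB ▸ subset_union_right
  have hfA : f '' A ≠ univ := fun h =>
    hAL (Subset.antisymm hAsub (hmin ⟨hAsub.trans hLK', hA, h⟩ hAsub))
  have hfB : f '' B ≠ univ := fun h =>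
    hBL (Subset.antisymm hBsub (hmin ⟨hBsub.trans hLK', hB, h⟩ hBsub))
  exact hX ⟨f '' A, f '' B, ⟨hA.1.image hf, hA.2.image f hf.continuousOn⟩,
    ⟨hB.1.image hf, hB.2.image f hf.continuousOn⟩, hfA, hfB, by rw [← image_union, hAB, hLf]⟩

end general

section composants

variable {X : Type*} [TopologicalSpace X] [T2Space X] [CompactSpace X] [ConnectedSpace X]

/-- If `X \ K` is covered by the disjoint closed sets `P`, `Q`, then `K ∪ P` is connected. -/
theorem connected_union {K P Q : Set X} (hK : IsSubcontinuum K) (hP : IsClosed P) (hQ : IsClosed Q)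
    (hPQ : Disjoint P Q) (hcov : Kᶜ ⊆ P ∪ Q) : IsSubcontinuum (K ∪ P) := by
  have hcl : IsClosed (K ∪ P) := hK.1.isClosed.union hP
  refine ⟨hcl.isCompact, hK.2.nonempty.mono subset_union_left, ?_⟩
  -- one side
  have side : ∀ a b : Set X, IsClosed a → IsClosed b → K ∪ P ⊆ a ∪ b → Disjoint a b → K ⊆ a →
      K ∪ P ⊆ a := by
    intro a b ha hb hsub hdis hKa
    have hR : IsClosed (P ∩ b) := hP.inter hb
    have hRo : IsOpen (P ∩ b) := by
      have : P ∩ b = (K ∪ Q ∪ (P ∩ a))ᶜ := by
        ext x
        simp only [mem_inter_iff, mem_compl_iff, mem_union, not_or, not_and]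
        constructor
        · rintro ⟨hxP, hxb⟩
          exact ⟨⟨fun h => Set.disjoint_left.1 hdis (hKa h) hxb,
            fun h => Set.disjoint_left.1 hPQ hxP h⟩, fun _ h => Set.disjoint_left.1 hdis h hxb⟩
        · rintro ⟨⟨h1, h2⟩, h3⟩
          have hxP : x ∈ P := (hcov h1).resolve_right h2
          exact ⟨hxP, (hsub (Or.inr hxP)).resolve_left (h3 hxP)⟩
      rw [this, isOpen_compl_iff]
      exact (hK.1.isClosed.union hQ).union (hP.inter ha)
    rcases isClopen_iff.1 ⟨hR, hRo⟩ with h | h
    · rintro x (hx | hx)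
      · exact hKa hx
      · rcases hsub (Or.inr hx) with h1 | h1
        · exact h1
        · have : x ∈ P ∩ b := ⟨hx, h1⟩
          rw [h] at this
          exact absurd this (notMem_empty x)
    · obtain ⟨k, hk⟩ := hK.2.nonempty
      have : k ∈ P ∩ b := by rw [h]; trivial
      exact absurd this.2 (Set.disjoint_left.1 hdis (hKa hk))
  rw [isPreconnected_iff_subset_of_fully_disjoint_closed hcl]
  intro a b ha hb hsub hdis
  have hpre := hK.2.isPreconnected
  rw [isPreconnected_iff_subset_of_fully_disjoint_closed hK.1.isClosed] at hpre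
  rcases hpre a b ha hb (subset_union_left.trans hsub) hdis with h | h
  · exact Or.inl (side a b ha hb hsub hdis h)
  · exact Or.inr (side b a hb ha (by rwa [union_comm b a]) hdis.symm h)

/-- Proper subcontinua of an indecomposable continuum have empty interior. -/
theorem interior_eq_empty (hX : ¬ Decomposable (univ : Set X)) {K : Set X}
    (hK : IsSubcontinuum K) (hne : K ≠ univ) : interior K = ∅ := by
  by_contra hint
  obtain ⟨x0, hx0⟩ := nonempty_iff_ne_empty.2 hint
  obtain ⟨y0, hy0⟩ := (ne_univ_iff_exists_notMem K).1 hne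
  have hx0' : x0 ∉ closure Kᶜ := by
    rw [closure_compl]; exact fun h => h hx0
  by_cases hpre : IsPreconnected (closure Kᶜ)
  · refine hX ⟨K, closure Kᶜ, hK, ⟨isClosed_closure.isCompact, ⟨y0, subset_closure hy0⟩, hpre⟩,
      hne, fun h => hx0' (by rw [h]; trivial), ?_⟩
    rw [eq_univ_iff_forall]
    intro x
    by_cases hx : x ∈ K
    · exact Or.inl hx
    · exact Or.inr (subset_closure hx)
  · rw [isPreconnected_iff_subset_of_fully_disjoint_closed isClosed_closure] at hpre
    push Not at hpre
    obtain ⟨u, v, hu, hv, huv, hdis, hnu, hnv⟩ := hpre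
    set P := closure Kᶜ ∩ u with hPdef
    set Q := closure Kᶜ ∩ v with hQdef
    have hP : IsClosed P := isClosed_closure.inter hu
    have hQ : IsClosed Q := isClosed_closure.inter hv
    have hPQ : Disjoint P Q := hdis.mono inter_subset_right inter_subset_right
    have hcov : Kᶜ ⊆ P ∪ Q := by
      intro x hx
      rcases huv (subset_closure hx) with h | h
      · exact Or.inl ⟨subset_closure hx, h⟩
      · exact Or.inr ⟨subset_closure hx, h⟩
    have h1 : ∃ x ∈ Kᶜ, x ∉ P := by
      by_contra hc
      push Not at hc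
      exact hnu ((closure_minimal hc hP).trans inter_subset_right)
    have h2 : ∃ x ∈ Kᶜ, x ∉ Q := by
      by_contra hc
      push Not at hc
      exact hnv ((closure_minimal hc hQ).trans inter_subset_right)
    obtain ⟨x1, hx1K, hx1P⟩ := h1
    obtain ⟨x2, hx2K, hx2Q⟩ := h2
    refine hX ⟨K ∪ P, K ∪ Q, connected_union hK hP hQ hPQ hcov,
      connected_union hK hQ hP hPQ.symm (by rwa [union_comm]), ?_, ?_, ?_⟩
    · intro h
      have : x1 ∈ K ∪ P := by rw [h]; trivial
      exact this.elim hx1K hx1P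
    · intro h
      have : x2 ∈ K ∪ Q := by rw [h]; trivial
      exact this.elim hx2K hx2Q
    · rw [eq_univ_iff_forall]
      intro x
      by_cases hx : x ∈ K
      · exact Or.inl (Or.inl hx)
      · rcases hcov hx with h | h
        · exact Or.inl (Or.inr h)
        · exact Or.inr (Or.inr h)

/-- An indecomposable metrizable continuum has two points which lie in no common proper
subcontinuum. -/
theorem exists_irreducible [SecondCountableTopology X] (hX : ¬ Decomposable (univ : Set X)) :
    ∃ x₁ x₂ : X, ∀ K : Set X, IsSubcontinuum K → x₁ ∈ K → x₂ ∈ K → K = univ := by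
  obtain ⟨x₁⟩ : Nonempty X := inferInstance
  let b := TopologicalSpace.countableBasis X
  have hb : b.Countable := TopologicalSpace.countable_countableBasis X
  have hbb : TopologicalSpace.IsTopologicalBasis b := TopologicalSpace.isBasis_countableBasis X
  let C : Set X → Set X := fun U => closure (connectedComponentIn Uᶜ x₁)
  have hC : ∀ U ∈ b, IsOpen (C U)ᶜ ∧ Dense (C U)ᶜ := by
    intro U hU
    refine ⟨isClosed_closure.isOpen_compl, ?_⟩
    rw [← interior_eq_empty_iff_dense_compl]
    have hUo : IsOpen U := hbb.isOpen hU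
    have hUne : U.Nonempty := TopologicalSpace.nonempty_of_mem_countableBasis hU
    by_cases hx : x₁ ∈ Uᶜ
    · refine interior_eq_empty hX ⟨isClosed_closure.isCompact,
        ⟨x₁, subset_closure (mem_connectedComponentIn hx)⟩,
        isPreconnected_connectedComponentIn.closure⟩ ?_
      obtain ⟨y, hy⟩ := hUne
      intro h
      have h1 : y ∈ C U := by rw [h]; trivial
      exact closure_minimal (connectedComponentIn_subset _ _) hUo.isClosed_compl h1 hy
    · have : C U = ∅ := by
        simp only [C]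
        rw [connectedComponentIn_eq_empty hx, closure_empty]
      rw [this, interior_empty]
  have hd : Dense (⋂ U ∈ b, (C U)ᶜ) :=
    dense_biInter_of_isOpen (fun U hU => (hC U hU).1) hb fun U hU => (hC U hU).2
  obtain ⟨x₂, hx₂⟩ := hd.nonempty
  refine ⟨x₁, x₂, fun K hK h1 h2 => ?_⟩
  by_contra hne
  obtain ⟨y, hy⟩ := (ne_univ_iff_exists_notMem K).1 hne
  obtain ⟨U, hU, hyU, hUK⟩ := hbb.exists_subset_of_mem_open hy hK.1.isClosed.isOpen_compl
  have hKU : K ⊆ Uᶜ := fun z hz hzU => hUK hzU hz
  have h3 : x₂ ∈ C U := subset_closure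
    (hK.2.isPreconnected.subset_connectedComponentIn h1 hKU h2)
  rw [mem_iInter₂] at hx₂
  exact hx₂ U hU h3

end composants

/-- Products with a nondegenerate indecomposable factor are not `λ`-connected. -/
theorem not_lambdaConnected_prod (X Y : Type*) [TopologicalSpace X] [T2Space X] [CompactSpace X]
    [ConnectedSpace X] [Nontrivial X] [SecondCountableTopology X] [TopologicalSpace Y] [T2Space Y]
    [Nonempty Y] (hX : ¬ Decomposable (univ : Set X)) : ¬ LambdaConnected (X × Y) := by
  intro h
  obtain ⟨x₁, x₂, hirr⟩ := exists_irreducible hX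
  obtain ⟨y⟩ : Nonempty Y := inferInstance
  obtain ⟨K, hK, hKd, h1, h2⟩ := h (x₁, y) (x₂, y)
  refine not_surj hX hK hKd continuous_fst ?_
  exact hirr _ ⟨hK.1.image continuous_fst, hK.2.image _ continuous_fst.continuousOn⟩
    ⟨_, h1, rfl⟩ ⟨_, h2, rfl⟩

section tent

/-- The tent map. -/
noncomputable def tent (t : ℝ) : ℝ := 1 - |2 * t - 1|

theorem continuous_tent : Continuous tent := by unfold tent; fun_prop

theorem tent_mem {t : ℝ} (ht : t ∈ Icc (0:ℝ) 1) : tent t ∈ Icc (0:ℝ) 1 := by
  unfold tent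
  obtain ⟨h0, h1⟩ := ht
  have h2 : |2 * t - 1| ≤ 1 := by rw [abs_le]; constructor <;> linarith
  have h3 := abs_nonneg (2 * t - 1)
  constructor <;> linarith

theorem tent_left {t : ℝ} (ht : t ≤ 1 / 2) : tent t = 2 * t := by
  unfold tent
  rw [abs_of_nonpos (by linarith)]; ring

theorem tent_right {t : ℝ} (ht : 1 / 2 ≤ t) : tent t = 2 - 2 * t := by
  unfold tent
  rw [abs_of_nonneg (by linarith)]; ring

theorem iter_mem {t : ℝ} (ht : t ∈ Icc (0:ℝ) 1) (n : ℕ) : tent^[n] t ∈ Icc (0:ℝ) 1 := by
  induction n with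
  | zero => exact ht
  | succ n ih => rw [Function.iterate_succ_apply']; exact tent_mem ih

/-- The inverse limit of the tent map. -/
def Lim : Set (ℕ → ℝ) := {x | (∀ n, x n ∈ Icc (0:ℝ) 1) ∧ ∀ n, tent (x (n + 1)) = x n}

/-- The finite stages. -/
def Stage (n : ℕ) : Set (ℕ → ℝ) :=
  {x | (∀ k, x k ∈ Icc (0:ℝ) 1) ∧ ∀ k < n, tent (x (k + 1)) = x k}

/-- The map onto the finite stage. -/
noncomputable def stageMap (n : ℕ) (y : ℕ → ℝ) : ℕ → ℝ := fun k =>
  if k < n then tent^[n - k] (y n) else y k

theorem continuous_stageMap (n : ℕ) : Continuous (stageMap n) := by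
  refine continuous_pi fun k => ?_
  unfold stageMap
  by_cases hk : k < n
  · simp only [hk, if_true]
    exact (continuous_tent.iterate _).comp (continuous_apply n)
  · simp only [hk, if_false]
    exact continuous_apply k

theorem iter_of_rel {x : ℕ → ℝ} {n : ℕ} (h : ∀ k < n, tent (x (k + 1)) = x k) (j : ℕ) (hj : j ≤ n) :
    tent^[j] (x n) = x (n - j) := by
  induction j with
  | zero => simp
  | succ j ih =>
    rw [Function.iterate_succ_apply', ih (by omega)]
    have h1 : n - j = (n - (j + 1)) + 1 := by omega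
    rw [h1]
    exact h _ (by omega)

theorem stage_eq (n : ℕ) : Stage n = stageMap n '' (univ.pi fun _ => Icc (0:ℝ) 1) := by
  ext x
  constructor
  · rintro ⟨h1, h2⟩
    refine ⟨x, fun k _ => h1 k, ?_⟩
    funext k
    unfold stageMap
    split_ifs with hk
    · rw [iter_of_rel h2 (n - k) (by omega)]
      congr 1; omega
    · rfl
  · rintro ⟨y, hy, rfl⟩
    have hy' : ∀ k, y k ∈ Icc (0:ℝ) 1 := fun k => hy k trivial
    refine ⟨fun k => ?_, fun k hk => ?_⟩
    · unfold stageMap
      split_ifs
      · exact iter_mem (hy' n) _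
      · exact hy' k
    · unfold stageMap
      rw [if_pos hk]
      split_ifs with h
      · rw [← Function.iterate_succ_apply' tent]
        congr 1; omega
      · have : k + 1 = n := by omega
        subst this
        have : k + 1 - k = 1 := by omega
        rw [this]; rfl

theorem isSubcontinuum_stage (n : ℕ) : IsSubcontinuum (Stage n) := by
  rw [stage_eq]
  have h1 : IsCompact (univ.pi fun _ : ℕ => Icc (0:ℝ) 1) := isCompact_univ_pi fun _ => isCompact_Icc
  have h2 : IsConnected (univ.pi fun _ : ℕ => Icc (0:ℝ) 1) :=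
    ⟨⟨fun _ => 0, fun _ _ => by simp⟩, isPreconnected_univ_pi fun _ => isPreconnected_Icc⟩
  exact ⟨h1.image (continuous_stageMap n), h2.image _ (continuous_stageMap n).continuousOn⟩

theorem isSubcontinuum_lim : IsSubcontinuum Lim := by
  have h : Lim = ⋂₀ range Stage := by
    ext x
    rw [sInter_range, mem_iInter]
    constructor
    · rintro ⟨h1, h2⟩ n
      exact ⟨h1, fun k _ => h2 k⟩
    · intro h
      exact ⟨(h 0).1, fun k => (h (k + 1)).2 k (by omega)⟩
  rw [h]
  refine isSubcontinuum_sInter (range_nonempty _) ?_ ?_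
  · rintro _ ⟨m, rfl⟩ _ ⟨n, rfl⟩ -
    rcases le_total m n with hmn | hmn
    · right
      exact fun x hx => ⟨hx.1, fun k hk => hx.2 k (by omega)⟩
    · left
      exact fun x hx => ⟨hx.1, fun k hk => hx.2 k (by omega)⟩
  · rintro _ ⟨n, rfl⟩
    exact isSubcontinuum_stage n

/-- The inverse limit as a space. -/
abbrev XL : Type := Lim

instance : CompactSpace XL := isCompact_iff_compactSpace.1 isSubcontinuum_lim.1
instance : ConnectedSpace XL := isConnected_iff_connectedSpace.1 isSubcontinuum_lim.2

/-- The coordinates. -/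
def pr (n : ℕ) (x : XL) : ℝ := x.1 n

theorem continuous_pr (n : ℕ) : Continuous (pr n) := (continuous_apply n).comp continuous_subtype_val

theorem pr_surj (n : ℕ) {t : ℝ} (ht : t ∈ Icc (0:ℝ) 1) : ∃ x : XL, pr n x = t := by
  let x : ℕ → ℝ := fun k => if k ≤ n then tent^[n - k] t else t / 2 ^ (k - n)
  have hx1 : ∀ k, x k ∈ Icc (0:ℝ) 1 := by
    intro k
    simp only [x]
    split_ifs
    · exact iter_mem ht _
    · have hp : (1:ℝ) ≤ 2 ^ (k - n) := one_le_pow₀ (by norm_num)
      refine ⟨div_nonneg ht.1 (by positivity), ?_⟩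
      rw [div_le_one (by positivity)]
      exact ht.2.trans hp
  have hx2 : ∀ k, tent (x (k + 1)) = x k := by
    intro k
    simp only [x]
    rcases lt_trichotomy k n with h | h | h
    · rw [if_pos (by omega), if_pos (by omega), ← Function.iterate_succ_apply' tent]
      congr 1; omega
    · subst h
      rw [if_neg (by omega), if_pos le_rfl]
      have : k + 1 - k = 1 := by omega
      rw [this, Nat.sub_self, pow_one, Function.iterate_zero, id, tent_left (by linarith [ht.2])]
      ring
    · rw [if_neg (by omega), if_neg (by omega)]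
      have h1 : k + 1 - n = (k - n) + 1 := by omega
      have hp : (1:ℝ) ≤ 2 ^ (k - n) := one_le_pow₀ (by norm_num)
      have h2 : t / 2 ^ (k - n + 1) = (t / 2 ^ (k - n)) / 2 := by
        rw [pow_succ, div_div]
      have h3 : t / 2 ^ (k - n) ≤ 1 := by
        rw [div_le_one (by positivity)]; exact ht.2.trans hp
      rw [h1, h2, tent_left (by linarith)]
      ring
  refine ⟨⟨x, hx1, hx2⟩, ?_⟩
  simp [pr, x]

instance : Nontrivial XL := by
  obtain ⟨x, hx⟩ := pr_surj 0 (t := 0) (by simp)
  obtain ⟨y, hy⟩ := pr_surj 0 (t := 1) (by simp)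
  refine ⟨x, y, fun h => ?_⟩
  rw [h, hy] at hx
  norm_num at hx

theorem tent_pr (n : ℕ) (x : XL) : tent (pr (n + 1) x) = pr n x := x.2.2 n

theorem half_left {A : Set XL} {n : ℕ} (h : Icc (0:ℝ) (1 / 2) ⊆ pr (n + 1) '' A) :
    Icc (0:ℝ) 1 ⊆ pr n '' A := by
  intro t ht
  obtain ⟨a, ha, hat⟩ := h (show t / 2 ∈ Icc (0:ℝ) (1 / 2) from
    ⟨by linarith [ht.1], by linarith [ht.2]⟩)
  refine ⟨a, ha, ?_⟩
  rw [← tent_pr, hat, tent_left (by linarith [ht.2])]
  ring

theorem half_right {A : Set XL} {n : ℕ} (h : Icc (1 / 2 : ℝ) 1 ⊆ pr (n + 1) '' A) :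
    Icc (0:ℝ) 1 ⊆ pr n '' A := by
  intro t ht
  obtain ⟨a, ha, hat⟩ := h (show 1 - t / 2 ∈ Icc (1 / 2 : ℝ) 1 from
    ⟨by linarith [ht.2], by linarith [ht.1]⟩)
  refine ⟨a, ha, ?_⟩
  rw [← tent_pr, hat, tent_right (by linarith [ht.2])]
  ring

theorem eq_univ_of_frequently {A : Set XL} (hA : IsClosed A)
    (h : ∀ N, ∃ n ≥ N, Icc (0:ℝ) 1 ⊆ pr n '' A) : A = univ := by
  rw [eq_univ_iff_forall]
  intro x
  choose f hf hfA using h
  choose a ha hax using fun N => hfA N (x.2.1 (f N))
  have hk : ∀ N k, k ≤ N → (a N).1 k = x.1 k := by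
    intro N k hkN
    have e1 := iter_of_rel (x := (a N).1) (n := f N) (fun k _ => (a N).2.2 k) (f N - k) (by omega)
    have e2 := iter_of_rel (x := x.1) (n := f N) (fun k _ => x.2.2 k) (f N - k) (by omega)
    have h3 : f N - (f N - k) = k := by have := hf N; omega
    rw [h3] at e1 e2
    rw [← e1, ← e2]
    congr 1
    exact hax N
  refine hA.mem_of_tendsto (b := atTop) (f := a) ?_ (Eventually.of_forall ha)
  rw [tendsto_subtype_rng, tendsto_pi_nhds]
  intro k
  refine tendsto_const_nhds.congr' ?_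
  filter_upwards [eventually_ge_atTop k] with N hN
  exact (hk N k hN).symm

theorem not_decomposable : ¬ Decomposable (univ : Set XL) := by
  rintro ⟨A, B, hA, hB, hAne, hBne, hAB⟩
  have hAf : ∃ N, ∀ n ≥ N, ¬ Icc (0:ℝ) 1 ⊆ pr n '' A := by
    by_contra hc
    push Not at hc
    exact hAne (eq_univ_of_frequently hA.1.isClosed hc)
  have hBf : ∃ N, ∀ n ≥ N, ¬ Icc (0:ℝ) 1 ⊆ pr n '' B := by
    by_contra hc
    push Not at hc
    exact hBne (eq_univ_of_frequently hB.1.isClosed hc)
  obtain ⟨M, hM⟩ := hAf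
  obtain ⟨N, hN⟩ := hBf
  -- the general step
  have step : ∀ A B : Set XL, IsSubcontinuum A → A ∪ B = univ → ∀ n,
      ¬ Icc (0:ℝ) 1 ⊆ pr n '' A → (0:ℝ) ∈ pr (n + 1) '' A → Icc (0:ℝ) 1 ⊆ pr n '' B := by
    intro A B hA hAB n hn h0
    have hord : OrdConnected (pr (n + 1) '' A) :=
      (hA.2.isPreconnected.image _ (continuous_pr _).continuousOn).ordConnected
    have hs : ¬ Icc (0:ℝ) (1 / 2) ⊆ pr (n + 1) '' A := fun h => hn (half_left h)
    rw [not_subset] at hs
    obtain ⟨s, hs1, hs2⟩ := hs
    apply half_right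
    intro t ht
    obtain ⟨x, hx⟩ := pr_surj (n + 1) (t := t) ⟨by linarith [ht.1], ht.2⟩
    have hxAB : x ∈ A ∪ B := by rw [hAB]; trivial
    rcases hxAB with h | h
    · exfalso
      apply hs2
      exact hord.out h0 ⟨x, h, hx⟩ ⟨hs1.1, hs1.2.trans ht.1⟩
    · exact ⟨x, h, hx⟩
  obtain ⟨x, hx⟩ := pr_surj (max M N + 1) (t := 0) (by simp)
  have hxAB : x ∈ A ∪ B := by rw [hAB]; trivial
  rcases hxAB with h | h
  · exact hN (max M N) (le_max_right _ _)
      (step A B hA hAB _ (hM _ (le_max_left _ _)) ⟨x, h, hx⟩)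
  · exact hM (max M N) (le_max_left _ _)
      (step B A hB (by rwa [union_comm B A]) _ (hN _ (le_max_right _ _)) ⟨x, h, hx⟩)

end tent

universe u v

/-- **Negative answer to Q1.** (1) If `X` is a nondegenerate indecomposable (metric) continuum, then
`X × Y` is not `λ`-connected, whatever the continuum `Y` is. (2) There are nondegenerate continua
`X`, `Y` whose product is not `λ`-connected. -/
theorem result :
    (∀ (X : Type u) (Y : Type v) [MetricSpace X] [CompactSpace X] [ConnectedSpace X] [Nontrivial X]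
      [MetricSpace Y] [CompactSpace Y] [ConnectedSpace Y],
      ¬ Decomposable (univ : Set X) → ¬ LambdaConnected (X × Y)) ∧
    ∃ (X Y : Type) (_ : MetricSpace X) (_ : MetricSpace Y),
      CompactSpace X ∧ ConnectedSpace X ∧ Nontrivial X ∧
      CompactSpace Y ∧ ConnectedSpace Y ∧ Nontrivial Y ∧ ¬ LambdaConnected (X × Y) := by
  refine ⟨fun X Y _ _ _ _ _ _ _ hX => not_lambdaConnected_prod X Y hX, ?_⟩
  refine ⟨XL, XL, TopologicalSpace.metrizableSpaceMetric XL,
    TopologicalSpace.metrizableSpaceMetric XL, ?_⟩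
  exact ⟨inferInstance, inferInstance, inferInstance, inferInstance, inferInstance, inferInstance,
    not_lambdaConnected_prod XL XL not_decomposable⟩

end Pool.Agent.Results.MP_3d59a4_gt.IndecomposableFactor
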